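import Pool.Agent.Helper64.BKS.Stmts

/-!
Project BKS, row HEN: elements which are close at `𝔓` have the same Kummer character on the
decomposition group (Hensel's lemma by uniqueness).
-/

set_option autoImplicit false

open NumberField Polynomial
open scoped Classical

namespace Pool.Agent.Helper28.BKS

open BKA (Gal Zb Pl q Over Congr)
open _root_.BKS

variable {F : Type} [Field F]

/-- an algebraic integer of the algebraic closure -/
theorem intg (x : Zb F) : IsIntegral ℤ (x : AlgebraicClosure F) := x.2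

theorem root_int {ζ : AlgebraicClosure F} {ℓ : ℕ} (hℓ : 0 < ℓ) (hζ : ζ ^ ℓ = 1) :
    IsIntegral ℤ ζ := by
  refine IsIntegral.of_pow hℓ ?_
  rw [hζ]
  exact isIntegral_one

theorem adjoin_int {ζ : AlgebraicClosure F} (h : IsIntegral ℤ ζ) {z : AlgebraicClosure F}
    (hz : z ∈ Algebra.adjoin ℤ {ζ}) : IsIntegral ℤ z := by
  have h1 : Algebra.adjoin ℤ {ζ} ≤ integralClosure ℤ (AlgebraicClosure F) := by
    rw [Algebra.adjoin_le_iff]
    intro x hx
    rw [Set.mem_singleton_iff.mp hx]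
    exact h
  exact h1 hz

/-- the core of the proof -/
theorem core (𝔓 : Ideal (Zb F)) (hP : 𝔓.IsPrime) (ℓ : ℕ) (hℓ : ℓ.Prime)
    (ζ : AlgebraicClosure F) (hζ : IsPrimitiveRoot ζ ℓ)
    (hch : (ℓ : AlgebraicClosure F) ≠ 0)
    (c t : Zb F) (hc : c ∉ 𝔓) (ht : t ∈ 𝔓) (y : AlgebraicClosure F) (hy0 : y ≠ 0)
    (hy : (c : AlgebraicClosure F) * (y ^ ℓ - 1) = (ℓ : AlgebraicClosure F) ^ 2 * t)
    (σ : Gal F) (hσc : σ (c : AlgebraicClosure F) = c) (hσζ : σ ζ = ζ)
    (hσy : σ (y ^ ℓ) = y ^ ℓ) (hσ : σ ∈ Dec 𝔓) : σ y = y := by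
  have hℓ0 : 0 < ℓ := hℓ.pos
  have hζ1 : ζ ^ ℓ = 1 := hζ.pow_eq_one
  have hζi : IsIntegral ℤ ζ := root_int hℓ0 hζ1
  have hζ0 : ζ ≠ 0 := hζ.ne_zero hℓ.ne_zero
  set π : AlgebraicClosure F := ζ - 1 with hπ
  have hπ0 : π ≠ 0 := sub_ne_zero.mpr (hζ.ne_one hℓ.one_lt)
  have hπi : IsIntegral ℤ π := hζi.sub isIntegral_one
  -- `ℓ² = π ^ ℓ * r`
  obtain ⟨u, hu, hu1⟩ := hζ.self_sub_one_pow_dvd_order (k := ℓ - 1) (by omega)
  have hui : IsIntegral ℤ u := adjoin_int hζi hu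
  have hr : (ℓ : AlgebraicClosure F) ^ 2 = π ^ ℓ * (u ^ 2 * π ^ (ℓ - 2)) := by
    rw [hu1, ← hπ]
    have h2 : 2 ≤ ℓ := hℓ.two_le
    obtain ⟨n, rfl⟩ := Nat.exists_eq_add_of_le h2
    have e1 : 2 + n - 1 = n + 1 := by omega
    have e2 : 2 + n - 2 = n := by omega
    rw [e1, e2]
    ring
  -- the elements `z i = 1 + ζ + ... + ζ ^ (i-1)`
  set z : ℕ → AlgebraicClosure F := fun i => ∑ k ∈ Finset.range i, ζ ^ k with hz
  have hzi : ∀ i, IsIntegral ℤ (z i) := fun i => IsIntegral.sum _ fun k _ => hζi.pow k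
  have hzπ : ∀ i, z i * π = ζ ^ i - 1 := fun i => by rw [hz, hπ]; exact geom_sum_mul ζ i
  set Y : AlgebraicClosure F := (y - 1) / π with hY
  have hYπ : Y * π = y - 1 := by rw [hY]; field_simp
  have hcc : (c : AlgebraicClosure F) ≠ 0 := by
    intro h
    apply hc
    have : c = 0 := Subtype.ext h
    rw [this]
    exact 𝔓.zero_mem
  -- product formula
  have hprod : ∏ i ∈ Finset.range ℓ, (Y - z i) = (y ^ ℓ - 1) / π ^ ℓ := by
    have h1 := congrArg (Polynomial.eval y) (X_pow_sub_C_eq_prod hζ hℓ0 (one_pow ℓ))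
    rw [Polynomial.eval_prod] at h1
    simp only [eval_sub, eval_pow, eval_X, eval_C, mul_one] at h1
    rw [h1, eq_div_iff (pow_ne_zero _ hπ0)]
    have h2 : π ^ ℓ = ∏ _i ∈ Finset.range ℓ, π := by rw [Finset.prod_const, Finset.card_range]
    rw [h2, ← Finset.prod_mul_distrib]
    refine Finset.prod_congr rfl fun i _ => ?_
    rw [sub_mul, hYπ, hzπ]
    ring
  set τ : Zb F := ⟨u ^ 2 * π ^ (ℓ - 2), (hui.pow 2).mul (hπi.pow _)⟩ * t with hτ
  have hτP : τ ∈ 𝔓 := 𝔓.mul_mem_left _ ht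
  have hτv : (τ : AlgebraicClosure F) = u ^ 2 * π ^ (ℓ - 2) * t := rfl
  have hcprod : (c : AlgebraicClosure F) * ∏ i ∈ Finset.range ℓ, (Y - z i) = τ := by
    rw [hprod, mul_div_assoc', hy, hr, hτv]
    field_simp
  have hcprod2 : ∏ i ∈ Finset.range ℓ, ((c : AlgebraicClosure F) * Y - c * z i) =
      (c : AlgebraicClosure F) ^ (ℓ - 1) * τ := by
    have h1 : ∏ i ∈ Finset.range ℓ, ((c : AlgebraicClosure F) * Y - c * z i) =
        (c : AlgebraicClosure F) ^ ℓ * ∏ i ∈ Finset.range ℓ, (Y - z i) := by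
      have h2 : (c : AlgebraicClosure F) ^ ℓ = ∏ _i ∈ Finset.range ℓ, (c : AlgebraicClosure F) := by
        rw [Finset.prod_const, Finset.card_range]
      rw [h2, ← Finset.prod_mul_distrib]
      exact Finset.prod_congr rfl fun i _ => by ring
    rw [h1, ← hcprod, ← mul_assoc, ← pow_succ, Nat.sub_add_cancel hℓ.one_le]
  -- `c Y` is integral
  have hcY : IsIntegral ℤ ((c : AlgebraicClosure F) * Y) := by
    have h1 : IsIntegral (Zb F) ((c : AlgebraicClosure F) * Y) := by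
      set Q : Polynomial (Zb F) := ∏ i ∈ Finset.range ℓ,
        (X - C (c * (⟨z i, hzi i⟩ : Zb F))) with hQ
      have hQm : Q.Monic := monic_prod_of_monic _ _ fun i _ => monic_X_sub_C _
      have hQd : Q.natDegree = ℓ := by
        rw [hQ, natDegree_prod_of_monic _ _ fun i _ => monic_X_sub_C _]
        simp only [natDegree_X_sub_C, Finset.sum_const, Finset.card_range, smul_eq_mul, mul_one]
      refine ⟨Q - C (c ^ (ℓ - 1) * τ), hQm.sub_of_left ?_, ?_⟩
      · refine lt_of_le_of_lt degree_C_le ?_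
        rw [degree_eq_natDegree hQm.ne_zero, hQd]
        exact_mod_cast hℓ0
      · rw [eval₂_sub, hQ, eval₂_finsetProd, eval₂_C]
        simp only [eval₂_sub, eval₂_X, eval₂_C]
        exact sub_eq_zero.mpr hcprod2
    exact isIntegral_trans _ h1
  set W : Zb F := ⟨(c : AlgebraicClosure F) * Y, hcY⟩ with hW
  -- one of the factors is in `𝔓`
  have hmem : ∏ i ∈ Finset.range ℓ, (W - c * (⟨z i, hzi i⟩ : Zb F)) ∈ 𝔓 := by
    have h1 : ∏ i ∈ Finset.range ℓ, (W - c * (⟨z i, hzi i⟩ : Zb F)) = c ^ (ℓ - 1) * τ := by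
      apply Subtype.ext
      have e1 : ((∏ i ∈ Finset.range ℓ, (W - c * (⟨z i, hzi i⟩ : Zb F)) : Zb F) :
          AlgebraicClosure F) = ∏ i ∈ Finset.range ℓ, ((c : AlgebraicClosure F) * Y - c * z i) := by
        have := map_prod (algebraMap (Zb F) (AlgebraicClosure F))
          (fun i => (W - c * (⟨z i, hzi i⟩ : Zb F))) (Finset.range ℓ)
        exact this
      rw [e1, hcprod2]
      rfl
    rw [h1]
    exact 𝔓.mul_mem_left _ hτP
  obtain ⟨i, -, hi⟩ := (Ideal.IsPrime.prod_mem_iff (hp := hP)).mp hmem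
  -- apply `σ`
  have hσz : ∀ i, σ (z i) = z i := fun i => by
    rw [hz]
    simp only
    rw [map_sum]
    exact Finset.sum_congr rfl fun k _ => by rw [map_pow, hσζ]
  have hσπ : σ π = π := by rw [hπ, map_sub, hσζ, map_one]
  have hσy' : (σ y / y) ^ ℓ = 1 := by
    rw [div_pow, ← map_pow, hσy]
    exact div_self (pow_ne_zero _ hy0)
  have : NeZero ℓ := ⟨hℓ.ne_zero⟩
  obtain ⟨j, hjl, hj⟩ := hζ.eq_pow_of_pow_eq_one hσy'
  have hσyj : σ y = ζ ^ j * y := by
    rw [hj]; field_simp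
  have hσY : σ Y = ζ ^ j * Y + z j := by
    have h1 : (ζ ^ j * Y + z j) * π = σ y - 1 := by
      rw [add_mul, hzπ, mul_assoc, hYπ, hσyj]
      ring
    have h2 : σ Y = (σ y - 1) / π := by rw [hY, map_div₀, map_sub, map_one, hσπ]
    rw [h2, ← h1]
    exact mul_div_cancel_right₀ _ hπ0
  have hi2 : (⟨(c : AlgebraicClosure F) * (ζ ^ j * Y + z j) - c * z i, by
      have : (c : AlgebraicClosure F) * (ζ ^ j * Y + z j) - c * z i =
        ζ ^ j * (c * Y) + c * z j - c * z i := by ring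
      rw [this]
      exact (((hζi.pow j).mul hcY).add ((intg c).mul (hzi j))).sub ((intg c).mul (hzi i))⟩ : Zb F) ∈ 𝔓 := by
    refine (hσ (W - c * (⟨z i, hzi i⟩ : Zb F)) _ ?_).mp hi
    show (c : AlgebraicClosure F) * (ζ ^ j * Y + z j) - c * z i =
      σ ((c : AlgebraicClosure F) * Y - c * z i)
    rw [map_sub, map_mul, map_mul, hσc, hσY, hσz]
  -- subtract
  set zj : Zb F := ⟨z j, hzi j⟩ with hzj
  set ζ' : Zb F := ⟨ζ, hζi⟩ with hζ'
  have hfin : c * (zj * ζ' ^ i) ∈ 𝔓 := by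
    have h1 : c * (zj * ζ' ^ i) = (⟨(c : AlgebraicClosure F) * (ζ ^ j * Y + z j) - c * z i, by
      have : (c : AlgebraicClosure F) * (ζ ^ j * Y + z j) - c * z i =
        ζ ^ j * (c * Y) + c * z j - c * z i := by ring
      rw [this]
      exact (((hζi.pow j).mul hcY).add ((intg c).mul (hzi j))).sub ((intg c).mul (hzi i))⟩ : Zb F) -
        ζ' ^ j * (W - c * (⟨z i, hzi i⟩ : Zb F)) := by
      apply Subtype.ext
      show (c : AlgebraicClosure F) * (z j * ζ ^ i) =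
        ((c : AlgebraicClosure F) * (ζ ^ j * Y + z j) - c * z i) -
          ζ ^ j * ((c : AlgebraicClosure F) * Y - c * z i)
      have h2 := hzπ i
      have h3 := hzπ j
      linear_combination (c : AlgebraicClosure F) * z j * (-1) * h2 +
        (c : AlgebraicClosure F) * z i * h3
    rw [h1]
    exact 𝔓.sub_mem hi2 (𝔓.mul_mem_left _ hi)
  have hzP : zj * ζ' ^ i ∈ 𝔓 := (hP.mem_or_mem hfin).resolve_left hc
  have hζu : ζ' ^ ℓ = 1 := Subtype.ext hζ1
  have hζn : ζ' ∉ 𝔓 := by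
    intro h
    apply hP.ne_top
    rw [Ideal.eq_top_iff_one, ← hζu]
    exact 𝔓.pow_mem_of_mem h ℓ hℓ0
  have hzjP : zj ∈ 𝔓 := (hP.mem_or_mem hzP).resolve_right fun h => hζn (hP.mem_of_pow_mem i h)
  by_cases hj0 : j = 0
  · rw [hσyj, hj0, pow_zero, one_mul]
  · exfalso
    -- `z j` is a unit
    have hcop : Nat.Coprime j ℓ := by
      rw [Nat.coprime_comm]
      exact (Nat.Prime.coprime_iff_not_dvd hℓ).mpr fun h =>
        absurd (Nat.le_of_dvd (Nat.pos_of_ne_zero hj0) h) (by omega)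
    obtain ⟨m, hm⟩ : ∃ m : ℕ, (ζ ^ j) ^ m = ζ := by
      have hp : IsPrimitiveRoot (ζ ^ j) ℓ := hζ.pow_of_coprime j hcop
      obtain ⟨m, -, hm⟩ := hp.eq_pow_of_pow_eq_one hζ1
      exact ⟨m, hm⟩
    set v : Zb F := ∑ k ∈ Finset.range m, (ζ' ^ j) ^ k with hv
    have hvv : zj * v = 1 := by
      apply Subtype.ext
      have e1 : ((zj * v : Zb F) : AlgebraicClosure F) =
          z j * ∑ k ∈ Finset.range m, (ζ ^ j) ^ k := by
        have h1 : ((v : Zb F) : AlgebraicClosure F) = ∑ k ∈ Finset.range m, (ζ ^ j) ^ k := by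
          have := map_sum (algebraMap (Zb F) (AlgebraicClosure F))
            (fun k => (ζ' ^ j) ^ k) (Finset.range m)
          exact this
        rw [← h1]
        rfl
      rw [e1]
      have h2 := geom_sum_mul (ζ ^ j) m
      rw [hm, ← hzπ j] at h2
      have h3 : π * (z j * ∑ k ∈ Finset.range m, (ζ ^ j) ^ k) = π * 1 := by
        rw [mul_one]
        calc π * (z j * ∑ k ∈ Finset.range m, (ζ ^ j) ^ k)
            = (∑ k ∈ Finset.range m, (ζ ^ j) ^ k) * (z j * π) := by ring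
          _ = π := by rw [h2]
      exact mul_left_cancel₀ hπ0 h3
    apply hP.ne_top
    rw [Ideal.eq_top_iff_one, ← hvv]
    exact 𝔓.mul_mem_right _ hzjP

theorem st_HEN : ST_HEN := by
  intro F _ _ Z _ w 𝔓 hw ℓ hℓ ζ hζ α hα
  obtain ⟨hP, hover⟩ := hw
  have hch : (ℓ : AlgebraicClosure F) ≠ 0 := Nat.cast_ne_zero.mpr hℓ.ne_zero
  set I : Ideal (𝓞 Z) := Ideal.span {α * (ℓ : 𝓞 Z) ^ 2} with hI
  have hI0 : I ≠ 0 := by
    rw [hI, Ne, Ideal.zero_eq_bot, Ideal.span_singleton_eq_bot]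
    exact mul_ne_zero hα (pow_ne_zero _ (Nat.cast_ne_zero.mpr hℓ.ne_zero))
  have hwp : Prime w.asIdeal := w.prime
  obtain ⟨J, hJ, hIJ⟩ :=
    (FiniteMultiplicity.of_prime_left hwp hI0).exists_eq_pow_mul_and_not_dvd
  set k := multiplicity w.asIdeal I with hk
  have hJc : ∃ c ∈ J, c ∉ w.asIdeal := by
    by_contra h
    push Not at h
    exact hIJ (Ideal.dvd_iff_le.mpr h)
  obtain ⟨c, hcJ, hcw⟩ := hJc
  refine ⟨k + 1, ?_⟩
  intro a ha b β hb hβ σ hσZ hσζ hσ
  -- the embedding of the integers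
  have hint : ∀ x : 𝓞 Z, IsIntegral ℤ (((x : Z)) : AlgebraicClosure F) := fun x =>
    (RingOfIntegers.isIntegral_coe x).map (IsScalarTower.toAlgHom ℤ Z (AlgebraicClosure F))
  by_cases hb0 : b = 0
  · rw [hb0, map_zero, zero_mul, zero_mul]
  have hα' : ((α : Z) : AlgebraicClosure F) ≠ 0 := by
    intro h
    apply hα
    have h1 : (α : Z) = 0 := Subtype.ext h
    exact RingOfIntegers.ext h1
  have hβ0 : β ≠ 0 := by
    intro h
    rw [h, zero_pow hℓ.ne_zero] at hβ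
    exact hα' hβ.symm
  -- the relation `c (a - α) = α ℓ² t`
  have hmem : c * (a - α) ∈ I * w.asIdeal := by
    rw [hJ]
    have h1 : c * (a - α) ∈ J * w.asIdeal ^ (k + 1) := Ideal.mul_mem_mul hcJ ha
    have h2 : J * w.asIdeal ^ (k + 1) = w.asIdeal ^ k * J * w.asIdeal := by
      rw [pow_succ]; ring
    rw [← h2]
    exact h1
  rw [hI, Ideal.mem_span_singleton_mul] at hmem
  obtain ⟨t, htw, ht⟩ := hmem
  set c' : Zb F := ⟨((c : Z) : AlgebraicClosure F), hint c⟩ with hc'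
  set t' : Zb F := ⟨((t : Z) : AlgebraicClosure F), hint t⟩ with ht'
  have hcP : c' ∉ 𝔓 := fun h => hcw ((hover c c' rfl).mpr h)
  have htP : t' ∈ 𝔓 := (hover t t' rfl).mp htw
  have hrel : ((α : Z) : AlgebraicClosure F) * (ℓ : AlgebraicClosure F) ^ 2 *
      ((t : Z) : AlgebraicClosure F) =
      ((c : Z) : AlgebraicClosure F) * (((a : Z) : AlgebraicClosure F) -
        ((α : Z) : AlgebraicClosure F)) := by
    have h1 := congrArg (fun x : 𝓞 Z => ((x : Z) : AlgebraicClosure F)) ht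
    simpa using h1
  have hy : (c' : AlgebraicClosure F) * ((b / β) ^ ℓ - 1) = (ℓ : AlgebraicClosure F) ^ 2 * t' := by
    rw [div_pow, hb, hβ]
    show ((c : Z) : AlgebraicClosure F) * (((a : Z) : AlgebraicClosure F) /
      ((α : Z) : AlgebraicClosure F) - 1) = (ℓ : AlgebraicClosure F) ^ 2 *
      ((t : Z) : AlgebraicClosure F)
    have h1 : ((a : Z) : AlgebraicClosure F) / ((α : Z) : AlgebraicClosure F) - 1 =
      (((a : Z) : AlgebraicClosure F) - ((α : Z) : AlgebraicClosure F)) /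
        ((α : Z) : AlgebraicClosure F) := by field_simp
    rw [h1, mul_div_assoc', ← hrel]
    field_simp
  have hfin := core 𝔓 hP ℓ hℓ ζ hζ hch c' t' hcP htP (b / β) (div_ne_zero hb0 hβ0) hy σ
    (hσZ (c : Z)) hσζ (by rw [div_pow, hb, hβ, map_div₀, hσZ, hσZ]) hσ
  rw [map_div₀] at hfin
  have hσβ : σ β ≠ 0 := fun h => hβ0 (by
    have : σ β = σ 0 := by rw [h, map_zero]
    exact σ.injective this)
  rw [div_eq_div_iff hσβ hβ0] at hfin
  exact hfin

end Pool.Agent.Helper28.BKS
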